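import Mathlib
import Pool.Agent.Q260.MG.Basic

/-! A finite lift whose magneto-spectral height is larger than that of the base graph. -/

open Finset Pool.Agent.Q260.MG

namespace Pool.Agent.Results.MP_cbccc2_co.LiftIncreases

/-- `π` is a finite lift (covering map) from `G'` to `G`: it is surjective on vertices and maps
the neighbours of every vertex `x` bijectively onto the neighbours of `π x`. -/
def IsLift {V' V : Type*} (G' : SimpleGraph V') (G : SimpleGraph V) (π : V' → V) : Prop :=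
  Function.Surjective π ∧ ∀ x, Set.BijOn π (G'.neighborSet x) (G.neighborSet (π x))

/-- incidence between points of `ℤ/n` and the triangles `{i, i+1, i+3}` (`T.2 = false`) and
`{i, i+2, i+3}` (`T.2 = true`) -/
def inc {n : ℕ} (p : ZMod n) (T : ZMod n × Bool) : Prop :=
  p - T.1 = 0 ∨ p - T.1 = (if T.2 then 2 else 1) ∨ p - T.1 = 3

instance {n : ℕ} (p : ZMod n) (T : ZMod n × Bool) : Decidable (inc p T) :=
  inferInstanceAs (Decidable (_ ∨ _ ∨ _))

/-- incidence graph of the triangulated torus with `n` points -/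
def tg (n : ℕ) : SimpleGraph (ZMod n ⊕ (ZMod n × Bool)) where
  Adj x y := match x, y with
    | Sum.inl p, Sum.inr T => inc p T
    | Sum.inr T, Sum.inl p => inc p T
    | _, _ => False
  symm := ⟨by
    rintro (p | T) (q | S) h
    · exact h
    · exact h
    · exact h
    · exact h⟩
  loopless := ⟨by
    rintro (p | T) h
    · exact h
    · exact h⟩

lemma energy_eq {n : ℕ} [NeZero n] {σ} (hσ : IsPotential (tg n) σ)
    (f : ZMod n ⊕ (ZMod n × Bool) → ℂ) :
    energy (tg n) σ f = ∑ p : ZMod n, ∑ T : ZMod n × Bool,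
      if inc p T then ‖f (Sum.inl p) - σ (Sum.inl p) (Sum.inr T) * f (Sum.inr T)‖ ^ 2 else 0 := by
  classical
  unfold energy
  rw [Fintype.sum_sum_type]
  simp only [Fintype.sum_sum_type]
  have h1 : ∀ p q : ZMod n, ¬ (tg n).Adj (Sum.inl p) (Sum.inl q) := fun _ _ h => h
  have h2 : ∀ p q : ZMod n × Bool, ¬ (tg n).Adj (Sum.inr p) (Sum.inr q) := fun _ _ h => h
  have h3 : ∀ p T, (tg n).Adj (Sum.inl p) (Sum.inr T) ↔ inc p T := fun _ _ => Iff.rfl
  have h4 : ∀ p T, (tg n).Adj (Sum.inr T) (Sum.inl p) ↔ inc p T := fun _ _ => Iff.rfl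
  simp only [h1, h2, h3, h4, if_false, Finset.sum_const_zero, zero_add, add_zero]
  have h5 : ∑ T : ZMod n × Bool, ∑ p : ZMod n, (if inc p T then
      ‖f (Sum.inr T) - σ (Sum.inr T) (Sum.inl p) * f (Sum.inl p)‖ ^ 2 else 0) =
      ∑ p : ZMod n, ∑ T : ZMod n × Bool,
      (if inc p T then ‖f (Sum.inl p) - σ (Sum.inl p) (Sum.inr T) * f (Sum.inr T)‖ ^ 2
        else 0) := by
    rw [Finset.sum_comm]
    refine Finset.sum_congr rfl fun p _ => Finset.sum_congr rfl fun T _ => ?_
    by_cases h : inc p T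
    · rw [if_pos h, if_pos h]
      obtain ⟨e1, e2⟩ := hσ (Sum.inl p) (Sum.inr T) h
      have e3 : σ (Sum.inl p) (Sum.inr T) ≠ 0 := by
        intro h0; rw [h0] at e1; simp at e1
      have e4 : f (Sum.inr T) - σ (Sum.inr T) (Sum.inl p) * f (Sum.inl p) =
          - σ (Sum.inr T) (Sum.inl p) *
            (f (Sum.inl p) - σ (Sum.inl p) (Sum.inr T) * f (Sum.inr T)) := by
        rw [e2]
        field_simp
        ring
      rw [e4, norm_mul, norm_neg, (hσ (Sum.inr T) (Sum.inl p) h).1, one_mul]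
    · rw [if_neg h, if_neg h]
  rw [h5]
  ring

/-! ### The base graph -/

/-- degree sums -/
lemma deg_point : ∀ p : ZMod 7, (univ.filter fun T : ZMod 7 × Bool => inc p T).card = 6 := by
  decide +kernel

lemma deg_tri : ∀ T : ZMod 7 × Bool, (univ.filter fun p : ZMod 7 => inc p T).card = 3 := by
  decide +kernel

section Base

variable {σ : ZMod 7 ⊕ (ZMod 7 × Bool) → ZMod 7 ⊕ (ZMod 7 × Bool) → ℂ}

/-- the matrix of the potential -/
noncomputable def mat (σ : ZMod 7 ⊕ (ZMod 7 × Bool) → ZMod 7 ⊕ (ZMod 7 × Bool) → ℂ)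
    (p : ZMod 7) (T : ZMod 7 × Bool) : ℂ :=
  if inc p T then σ (Sum.inl p) (Sum.inr T) else 0

/-- inner product of two rows -/
noncomputable def rowip (σ : ZMod 7 ⊕ (ZMod 7 × Bool) → ZMod 7 ⊕ (ZMod 7 × Bool) → ℂ)
    (p q : ZMod 7) : ℂ := ∑ T, mat σ p T * (starRingEnd ℂ) (mat σ q T)

lemma mat_norm (hσ : IsPotential (tg 7) σ) (p : ZMod 7) (T : ZMod 7 × Bool) :
    ‖mat σ p T‖ ^ 2 = if inc p T then 1 else 0 := by
  unfold mat
  split_ifs with h
  · rw [(hσ (Sum.inl p) (Sum.inr T) h).1]; norm_num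
  · simp

/-- the energy of the trial function attached to `g` -/
lemma energy_trial (hσ : IsPotential (tg 7) σ) (g : ZMod 7 → ℂ) (t : ℝ) :
    energy (tg 7) σ (Sum.elim g fun T => t * ∑ p, (starRingEnd ℂ) (mat σ p T) * g p) =
      6 * ∑ p, ‖g p‖ ^ 2 + (3 * t ^ 2 - 2 * t) *
        ∑ T, ‖∑ p, (starRingEnd ℂ) (mat σ p T) * g p‖ ^ 2 := by
  rw [energy_eq hσ]
  set Y : ZMod 7 × Bool → ℂ := fun T => ∑ p, (starRingEnd ℂ) (mat σ p T) * g p with hY
  change (∑ p : ZMod 7, ∑ T : ZMod 7 × Bool, if inc p T then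
    ‖g p - σ (Sum.inl p) (Sum.inr T) * (t * Y T)‖ ^ 2 else 0) =
      6 * ∑ p, ‖g p‖ ^ 2 + (3 * t ^ 2 - 2 * t) * ∑ T, ‖Y T‖ ^ 2
  have h1 : ∀ p T, (if inc p T then ‖g p - σ (Sum.inl p) (Sum.inr T) * (t * Y T)‖ ^ 2 else 0) =
      (if inc p T then ‖g p‖ ^ 2 else 0) + t ^ 2 * (if inc p T then ‖Y T‖ ^ 2 else 0) -
        2 * t * ((starRingEnd ℂ) ((starRingEnd ℂ) (mat σ p T) * g p) * Y T).re := by
    intro p T
    by_cases h : inc p T
    · simp only [if_pos h, mat]
      obtain ⟨e1, e2⟩ := hσ (Sum.inl p) (Sum.inr T) h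
      rw [← Complex.normSq_eq_norm_sq, Complex.normSq_sub, map_mul, map_mul,
        Complex.normSq_eq_norm_sq (σ _ _), e1, Complex.normSq_ofReal,
        Complex.normSq_eq_norm_sq, Complex.normSq_eq_norm_sq]
      have e3 : (g p * (starRingEnd ℂ) (σ (Sum.inl p) (Sum.inr T) * (t * Y T))).re =
          t * ((starRingEnd ℂ) ((starRingEnd ℂ) (σ (Sum.inl p) (Sum.inr T)) * g p) * Y T).re := by
        simp only [map_mul, Complex.conj_conj, Complex.conj_ofReal]
        simp only [Complex.mul_re, Complex.mul_im, Complex.conj_re, Complex.conj_im,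
          Complex.ofReal_re, Complex.ofReal_im]
        ring
      rw [e3]
      ring
    · simp [if_neg h, mat]
  simp only [h1]
  simp only [Finset.sum_sub_distrib, Finset.sum_add_distrib, ← Finset.mul_sum]
  have h2 : ∑ p : ZMod 7, ∑ T : ZMod 7 × Bool, (if inc p T then ‖g p‖ ^ 2 else 0) =
      6 * ∑ p, ‖g p‖ ^ 2 := by
    rw [Finset.mul_sum]
    refine Finset.sum_congr rfl fun p _ => ?_
    rw [← Finset.sum_filter, Finset.sum_const, deg_point]
    norm_num
  have h3 : ∑ p : ZMod 7, ∑ T : ZMod 7 × Bool, (if inc p T then ‖Y T‖ ^ 2 else 0) =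
      3 * ∑ T, ‖Y T‖ ^ 2 := by
    rw [Finset.sum_comm, Finset.mul_sum]
    refine Finset.sum_congr rfl fun T _ => ?_
    rw [← Finset.sum_filter, Finset.sum_const, deg_tri]
    norm_num
  have h4 : ∑ p : ZMod 7, ∑ T : ZMod 7 × Bool,
      ((starRingEnd ℂ) ((starRingEnd ℂ) (mat σ p T) * g p) * Y T).re = ∑ T, ‖Y T‖ ^ 2 := by
    rw [Finset.sum_comm]
    refine Finset.sum_congr rfl fun T _ => ?_
    rw [← Complex.re_sum, ← Finset.sum_mul, ← map_sum]
    change ((starRingEnd ℂ) (Y T) * Y T).re = _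
    rw [← Complex.normSq_eq_conj_mul_self, Complex.ofReal_re, Complex.normSq_eq_norm_sq]
  rw [h2, h3, h4]
  ring

lemma numeric {X L : ℝ} (h1 : 12 + 4 / 21 ≤ X)
    (h2 : L * (2 + 0.73 ^ 2 * X) ≤ 6 * 2 + (3 * 0.73 ^ 2 - 2 * 0.73) * X) : L ≤ 1.62 := by
  by_contra hcon
  push Not at hcon
  have h6 : 1.62 * (2 + 0.73 ^ 2 * X) < L * (2 + 0.73 ^ 2 * X) := by
    apply mul_lt_mul_of_pos_right hcon
    positivity
  linarith

/-- two rows with large inner product bound the smallest eigenvalue -/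
lemma lam1_le_of_rowip (hσ : IsPotential (tg 7) σ) {p q : ZMod 7} (hpq : p ≠ q)
    (hc : 2 / 21 ≤ ‖rowip σ p q‖) : lam1 (tg 7) σ ≤ 1.62 := by
  set c := rowip σ p q with hcdef
  have hc0 : c ≠ 0 := by
    intro h; rw [h, norm_zero] at hc; norm_num at hc
  have hcn : (‖c‖ : ℂ) ≠ 0 := by exact_mod_cast (norm_ne_zero_iff.2 hc0)
  set ω : ℂ := (starRingEnd ℂ) c / ‖c‖ with hω
  have hωn : ‖ω‖ = 1 := by
    rw [hω, norm_div, RCLike.norm_conj, Complex.norm_real, norm_norm]
    exact div_self (norm_ne_zero_iff.2 hc0)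
  have hωc : (ω * c).re = ‖c‖ := by
    have : ω * c = (‖c‖ : ℂ) := by
      rw [hω, div_mul_eq_mul_div, ← Complex.normSq_eq_conj_mul_self, Complex.normSq_eq_norm_sq]
      field_simp
      push_cast
      ring
    rw [this, Complex.ofReal_re]
  set g : ZMod 7 → ℂ := fun x => if x = p then 1 else if x = q then ω else 0 with hg
  have hgs : ∀ F : ZMod 7 → ℂ, ∑ x, F x * g x = F p + F q * ω := by
    intro F
    have : ∀ x, F x * g x = (if x = p then F x else 0) + (if x = q then F x * ω else 0) := by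
      intro x
      simp only [hg]
      by_cases h1 : x = p
      · have h2 : x ≠ q := fun h => hpq (h1.symm.trans h)
        simp [h1, hpq]
      · by_cases h2 : x = q
        · simp [h2, Ne.symm hpq]
        · simp [h1, h2]
    simp only [this, Finset.sum_add_distrib, Finset.sum_ite_eq', Finset.mem_univ, if_true]
  have hgn : ∑ x, ‖g x‖ ^ 2 = 2 := by
    have : ∀ x, ‖g x‖ ^ 2 = (if x = p then 1 else 0) + (if x = q then 1 else 0) := by
      intro x
      simp only [hg]
      by_cases h1 : x = p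
      · simp [h1, hpq]
      · by_cases h2 : x = q
        · simp [h2, Ne.symm hpq, hωn]
        · simp [h1, h2]
    simp only [this, Finset.sum_add_distrib, Finset.sum_ite_eq', Finset.mem_univ, if_true]
    norm_num
  set X : ℝ := ∑ T, ‖∑ x, (starRingEnd ℂ) (mat σ x T) * g x‖ ^ 2 with hX
  have hXv : X = 12 + 2 * ‖c‖ := by
    rw [hX]
    have h1 : ∀ T, ‖∑ x, (starRingEnd ℂ) (mat σ x T) * g x‖ ^ 2 =
        ‖mat σ p T‖ ^ 2 + ‖mat σ q T‖ ^ 2 +
          2 * (ω * (mat σ p T * (starRingEnd ℂ) (mat σ q T))).re := by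
      intro T
      rw [hgs, ← Complex.normSq_eq_norm_sq, Complex.normSq_add, map_mul,
        Complex.normSq_conj, Complex.normSq_conj, Complex.normSq_eq_norm_sq ω, hωn,
        Complex.normSq_eq_norm_sq, Complex.normSq_eq_norm_sq]
      simp only [map_mul, Complex.conj_conj]
      simp only [Complex.mul_re, Complex.mul_im, Complex.conj_re, Complex.conj_im]
      ring
    simp only [h1, Finset.sum_add_distrib, ← Finset.mul_sum]
    rw [← Complex.re_sum, ← Finset.mul_sum]
    change _ + _ + 2 * (ω * c).re = _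
    rw [hωc]
    simp only [mat_norm hσ, Finset.sum_boole, deg_point]
    norm_num
  have hR := lam1_mul_le hσ
    (Sum.elim g fun T => ((0.73 : ℝ) : ℂ) * ∑ p, (starRingEnd ℂ) (mat σ p T) * g p)
  rw [energy_trial hσ, hgn, ← hX, Fintype.sum_sum_type] at hR
  simp only [Sum.elim_inl, Sum.elim_inr] at hR
  rw [hgn] at hR
  have h5 : ∑ T, ‖((0.73 : ℝ) : ℂ) * ∑ p, (starRingEnd ℂ) (mat σ p T) * g p‖ ^ 2 =
      0.73 ^ 2 * X := by
    rw [hX, Finset.mul_sum]
    refine Finset.sum_congr rfl fun T _ => ?_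
    rw [norm_mul, Complex.norm_real, Real.norm_of_nonneg (by norm_num)]
    ring
  rw [h5] at hR
  have hX2 : 12 + 4 / 21 ≤ X := by rw [hXv]; linarith
  exact numeric hX2 hR

lemma norm_one_sub_prod_le {ι : Type*} [DecidableEq ι] (s : Finset ι) (x : ι → ℂ)
    (hx : ∀ i ∈ s, ‖x i‖ = 1) : ‖1 - ∏ i ∈ s, x i‖ ≤ ∑ i ∈ s, ‖1 - x i‖ := by
  induction s using Finset.induction_on with
  | empty => simp
  | insert a s ha ih =>
    rw [Finset.prod_insert ha, Finset.sum_insert ha]
    have h1 : 1 - x a * ∏ i ∈ s, x i = (1 - x a) + x a * (1 - ∏ i ∈ s, x i) := by ring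
    rw [h1]
    refine (norm_add_le _ _).trans ?_
    rw [norm_mul, hx a (Finset.mem_insert_self a s), one_mul]
    exact add_le_add le_rfl (ih fun i hi => hx i (Finset.mem_insert_of_mem hi))

lemma rowip1 (i : ZMod 7) : rowip σ i (i + 1) =
    mat σ i (i, false) * (starRingEnd ℂ) (mat σ (i + 1) (i, false)) +
    mat σ i (i - 2, true) * (starRingEnd ℂ) (mat σ (i + 1) (i - 2, true)) := by
  unfold rowip
  rw [Fintype.sum_prod_type]
  simp only [Fintype.sum_bool]
  rw [Finset.sum_add_distrib, add_comm]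
  congr 1
  · rw [Finset.sum_eq_single i]
    · intro j _ hj
      have := (by decide +kernel : ∀ i j : ZMod 7, j ≠ i → ¬ (inc i (j, false) ∧
        inc (i + 1) (j, false))) i j hj
      rw [not_and_or] at this
      rcases this with h | h <;> simp [mat, h]
    · simp
  · rw [Finset.sum_eq_single (i - 2)]
    · intro j _ hj
      have := (by decide +kernel : ∀ i j : ZMod 7, j ≠ i - 2 → ¬ (inc i (j, true) ∧
        inc (i + 1) (j, true))) i j hj
      rw [not_and_or] at this
      rcases this with h | h <;> simp [mat, h]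
    · simp

lemma rowip2 (i : ZMod 7) : rowip σ i (i + 2) =
    mat σ i (i, true) * (starRingEnd ℂ) (mat σ (i + 2) (i, true)) +
    mat σ i (i - 1, false) * (starRingEnd ℂ) (mat σ (i + 2) (i - 1, false)) := by
  unfold rowip
  rw [Fintype.sum_prod_type]
  simp only [Fintype.sum_bool]
  rw [Finset.sum_add_distrib]
  congr 1
  · rw [Finset.sum_eq_single i]
    · intro j _ hj
      have := (by decide +kernel : ∀ i j : ZMod 7, j ≠ i → ¬ (inc i (j, true) ∧
        inc (i + 2) (j, true))) i j hj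
      rw [not_and_or] at this
      rcases this with h | h <;> simp [mat, h]
    · simp
  · rw [Finset.sum_eq_single (i - 1)]
    · intro j _ hj
      have := (by decide +kernel : ∀ i j : ZMod 7, j ≠ i - 1 → ¬ (inc i (j, false) ∧
        inc (i + 2) (j, false))) i j hj
      rw [not_and_or] at this
      rcases this with h | h <;> simp [mat, h]
    · simp

lemma rowip3 (i : ZMod 7) : rowip σ i (i + 3) =
    mat σ i (i, false) * (starRingEnd ℂ) (mat σ (i + 3) (i, false)) +
    mat σ i (i, true) * (starRingEnd ℂ) (mat σ (i + 3) (i, true)) := by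
  unfold rowip
  rw [Fintype.sum_prod_type]
  simp only [Fintype.sum_bool]
  rw [Finset.sum_add_distrib, add_comm]
  congr 1
  · rw [Finset.sum_eq_single i]
    · intro j _ hj
      have := (by decide +kernel : ∀ i j : ZMod 7, j ≠ i → ¬ (inc i (j, false) ∧
        inc (i + 3) (j, false))) i j hj
      rw [not_and_or] at this
      rcases this with h | h <;> simp [mat, h]
    · simp
  · rw [Finset.sum_eq_single i]
    · intro j _ hj
      have := (by decide +kernel : ∀ i j : ZMod 7, j ≠ i → ¬ (inc i (j, true) ∧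
        inc (i + 3) (j, true))) i j hj
      rw [not_and_or] at this
      rcases this with h | h <;> simp [mat, h]
    · simp

lemma mat_unit (hσ : IsPotential (tg 7) σ) {p : ZMod 7} {T : ZMod 7 × Bool} (h : inc p T) :
    ‖mat σ p T‖ = 1 := by
  unfold mat
  rw [if_pos h]
  exact (hσ (Sum.inl p) (Sum.inr T) h).1

lemma norm_add_unit {a b : ℂ} (hb : ‖b‖ = 1) :
    ‖a + b‖ = ‖1 - (-(a * (starRingEnd ℂ) b))‖ := by
  have h1 : (1 : ℂ) - (-(a * (starRingEnd ℂ) b)) = (a + b) * (starRingEnd ℂ) b := by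
    have h2 : b * (starRingEnd ℂ) b = 1 := by
      rw [mul_comm, ← Complex.normSq_eq_conj_mul_self, Complex.normSq_eq_norm_sq, hb]
      norm_num
    rw [add_mul, h2]
    ring
  rw [h1, norm_mul, RCLike.norm_conj, hb, mul_one]

/-- some pair of rows has large inner product -/
lemma exists_rowip (hσ : IsPotential (tg 7) σ) :
    ∃ p q : ZMod 7, p ≠ q ∧ 2 / 21 ≤ ‖rowip σ p q‖ := by
  by_contra hcon
  push Not at hcon
  set u0 : ZMod 7 → ℂ := fun i => mat σ i (i, false) with hu0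
  set u1 : ZMod 7 → ℂ := fun i => mat σ (i + 1) (i, false) with hu1
  set u3 : ZMod 7 → ℂ := fun i => mat σ (i + 3) (i, false) with hu3
  set d0 : ZMod 7 → ℂ := fun i => mat σ i (i, true) with hd0
  set d2 : ZMod 7 → ℂ := fun i => mat σ (i + 2) (i, true) with hd2
  set d3 : ZMod 7 → ℂ := fun i => mat σ (i + 3) (i, true) with hd3
  have nu0 : ∀ i, ‖u0 i‖ = 1 := fun i =>
    mat_unit hσ ((by decide +kernel : ∀ i : ZMod 7, inc i (i, false)) i)
  have nu1 : ∀ i, ‖u1 i‖ = 1 := fun i =>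
    mat_unit hσ ((by decide +kernel : ∀ i : ZMod 7, inc (i + 1) (i, false)) i)
  have nu3 : ∀ i, ‖u3 i‖ = 1 := fun i =>
    mat_unit hσ ((by decide +kernel : ∀ i : ZMod 7, inc (i + 3) (i, false)) i)
  have nd0 : ∀ i, ‖d0 i‖ = 1 := fun i =>
    mat_unit hσ ((by decide +kernel : ∀ i : ZMod 7, inc i (i, true)) i)
  have nd2 : ∀ i, ‖d2 i‖ = 1 := fun i =>
    mat_unit hσ ((by decide +kernel : ∀ i : ZMod 7, inc (i + 2) (i, true)) i)
  have nd3 : ∀ i, ‖d3 i‖ = 1 := fun i =>
    mat_unit hσ ((by decide +kernel : ∀ i : ZMod 7, inc (i + 3) (i, true)) i)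
  set cj := starRingEnd ℂ with hcj
  have ncj : ∀ z : ℂ, ‖cj z‖ = ‖z‖ := fun z => RCLike.norm_conj z
  set x1 : ZMod 7 → ℂ := fun i => -(cj (u0 i * cj (u1 i) * cj (d2 (i - 2) * cj (d3 (i - 2)))))
    with hx1
  set x2 : ZMod 7 → ℂ := fun i => -(d0 i * cj (d2 i) * cj (u1 (i - 1) * cj (u3 (i - 1)))) with hx2
  set x3 : ZMod 7 → ℂ := fun i => -(u0 i * cj (u3 i) * cj (d0 i * cj (d3 i))) with hx3
  have b1 : ∀ i, ‖1 - x1 i‖ < 2 / 21 := by
    intro i
    have h1 := hcon i (i + 1) ((by decide +kernel : ∀ i : ZMod 7, i ≠ i + 1) i)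
    rw [rowip1] at h1
    have e1 : i - 2 + 3 = i + 1 := by ring
    have e2 : i - 2 + 2 = i := by ring
    have h2 : mat σ i (i - 2, true) = d2 (i - 2) := by simp only [hd2, e2]
    have h3 : mat σ (i + 1) (i - 2, true) = d3 (i - 2) := by simp only [hd3, e1]
    rw [h2, h3] at h1
    change ‖u0 i * cj (u1 i) + d2 (i - 2) * cj (d3 (i - 2))‖ < 2 / 21 at h1
    rw [norm_add_unit (by rw [norm_mul, ncj, nd2, nd3, one_mul])] at h1
    have h4 : 1 - x1 i = cj (1 - (-(u0 i * cj (u1 i) * cj (d2 (i - 2) * cj (d3 (i - 2)))))) := by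
      simp only [hx1, map_sub, map_neg, map_one]
    rw [h4, ncj]
    exact h1
  have b2 : ∀ i, ‖1 - x2 i‖ < 2 / 21 := by
    intro i
    have h1 := hcon i (i + 2) ((by decide +kernel : ∀ i : ZMod 7, i ≠ i + 2) i)
    rw [rowip2] at h1
    have e1 : i - 1 + 3 = i + 2 := by ring
    have e2 : i - 1 + 1 = i := by ring
    have h2 : mat σ i (i - 1, false) = u1 (i - 1) := by simp only [hu1, e2]
    have h3 : mat σ (i + 2) (i - 1, false) = u3 (i - 1) := by simp only [hu3, e1]
    rw [h2, h3] at h1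
    change ‖d0 i * cj (d2 i) + u1 (i - 1) * cj (u3 (i - 1))‖ < 2 / 21 at h1
    rw [norm_add_unit (by rw [norm_mul, ncj, nu1, nu3, one_mul])] at h1
    exact h1
  have b3 : ∀ i, ‖1 - x3 i‖ < 2 / 21 := by
    intro i
    have h1 := hcon i (i + 3) ((by decide +kernel : ∀ i : ZMod 7, i ≠ i + 3) i)
    rw [rowip3] at h1
    change ‖u0 i * cj (u3 i) + d0 i * cj (d3 i)‖ < 2 / 21 at h1
    rw [norm_add_unit (by rw [norm_mul, ncj, nd0, nd3, one_mul])] at h1
    exact h1
  have n1 : ∀ i, ‖x1 i‖ = 1 := by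
    intro i
    simp only [hx1, norm_neg, ncj, norm_mul, nu0, nu1, nd2, nd3, one_mul]
  have n2 : ∀ i, ‖x2 i‖ = 1 := by
    intro i
    simp only [hx2, norm_neg, ncj, norm_mul, nd0, nu1, nd2, nu3, one_mul]
  have n3 : ∀ i, ‖x3 i‖ = 1 := by
    intro i
    simp only [hx3, norm_neg, ncj, norm_mul, nd0, nu0, nd3, nu3, one_mul]
  have hprod : ∏ i, (x1 i * (x2 i * x3 i)) = -1 := by
    have sh2 : ∀ F : ZMod 7 → ℂ, ∏ i, F (i - 2) = ∏ i, F i := fun F =>
      Equiv.prod_comp (Equiv.subRight (2 : ZMod 7)) F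
    have sh1 : ∀ F : ZMod 7 → ℂ, ∏ i, F (i - 1) = ∏ i, F i := fun F =>
      Equiv.prod_comp (Equiv.subRight (1 : ZMod 7)) F
    have h1 : ∀ i, x1 i * (x2 i * x3 i) = (-1) * ((cj (u0 i) * u1 i * ((fun j => d2 j * cj (d3 j)) (i - 2))) *
        ((d0 i * cj (d2 i) * ((fun j => cj (u1 j) * u3 j) (i - 1))) *
          (u0 i * cj (u3 i) * (cj (d0 i) * d3 i)))) := by
      intro i
      simp only [hx1, hx2, hx3, map_mul, hcj, Complex.conj_conj]
      ring
    simp only [h1, Finset.prod_mul_distrib]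
    rw [sh2 d2, sh2 (fun j => cj (d3 j)), sh1 (fun j => cj (u1 j)), sh1 u3]
    have hP : ∀ F : ZMod 7 → ℂ, (∀ i, ‖F i‖ = 1) → (∏ i, F i) * ∏ i, cj (F i) = 1 := by
      intro F hF
      rw [← Finset.prod_mul_distrib]
      apply Finset.prod_eq_one
      intro i _
      rw [mul_comm, ← Complex.normSq_eq_conj_mul_self, Complex.normSq_eq_norm_sq, hF i]
      norm_num
    have hc : ∏ _i : ZMod 7, (-1 : ℂ) = -1 := by
      rw [Finset.prod_const, Finset.card_univ, ZMod.card]
      norm_num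
    rw [hc]
    have q0 := hP u0 nu0
    have q1 := hP u1 nu1
    have q3 := hP u3 nu3
    have r0 := hP d0 nd0
    have r2 := hP d2 nd2
    have r3 := hP d3 nd3
    calc _ = -(((∏ i, u0 i) * ∏ i, cj (u0 i)) * ((∏ i, u1 i) * ∏ i, cj (u1 i)) *
          ((∏ i, u3 i) * ∏ i, cj (u3 i)) * ((∏ i, d0 i) * ∏ i, cj (d0 i)) *
          ((∏ i, d2 i) * ∏ i, cj (d2 i)) * ((∏ i, d3 i) * ∏ i, cj (d3 i))) := by ring
      _ = -1 := by rw [q0, q1, q3, r0, r2, r3]; ring
  have h1 := norm_one_sub_prod_le (Finset.univ : Finset (ZMod 7))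
    (fun i => x1 i * (x2 i * x3 i)) (fun i _ => by
      rw [norm_mul, norm_mul, n1, n2, n3]; norm_num)
  rw [hprod] at h1
  have h2 : ∀ i, ‖1 - x1 i * (x2 i * x3 i)‖ < 2 / 7 := by
    intro i
    have e : 1 - x1 i * (x2 i * x3 i) = (1 - x1 i) + x1 i * ((1 - x2 i) + x2 i * (1 - x3 i)) := by
      ring
    rw [e]
    have h3 := norm_add_le (1 - x1 i) (x1 i * ((1 - x2 i) + x2 i * (1 - x3 i)))
    rw [norm_mul (x1 i), n1, one_mul] at h3
    have h4 := norm_add_le (1 - x2 i) (x2 i * (1 - x3 i))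
    rw [norm_mul (x2 i), n2, one_mul] at h4
    have := b1 i
    have := b2 i
    have := b3 i
    linarith
  have h3 : ∑ i : ZMod 7, ‖1 - x1 i * (x2 i * x3 i)‖ < ∑ _i : ZMod 7, (2 / 7 : ℝ) :=
    Finset.sum_lt_sum_of_nonempty ⟨0, Finset.mem_univ 0⟩ fun i _ => h2 i
  have h4 : ∑ _i : ZMod 7, (2 / 7 : ℝ) = 2 := by
    rw [Finset.sum_const, Finset.card_univ, ZMod.card]
    norm_num
  have h5 : ‖(1 : ℂ) - -1‖ = 2 := by norm_num
  linarith

lemma nu_base : nu (tg 7) ≤ 1.62 := by
  apply nu_le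
  intro σ hσ
  obtain ⟨p, q, hpq, hc⟩ := exists_rowip hσ
  exact lam1_le_of_rowip hσ hpq hc

end Base

/-! ### The lift -/

/-- signs of the potential on the lift -/
def sgn (p : ZMod 14) (T : ZMod 14 × Bool) : ℤ :=
  if p - T.1 = 0 then 1
  else if T.2 = true then (if p - T.1 = 2 then (-1) ^ T.1.val else -1)
  else (if p - T.1 = 1 then (-1) ^ T.1.val else 1)

/-- signed incidence matrix -/
def sm (p : ZMod 14) (T : ZMod 14 × Bool) : ℤ := if inc p T then sgn p T else 0

lemma sm_orth : ∀ p q : ZMod 14, ∑ T : ZMod 14 × Bool, sm p T * sm q T =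
    if p = q then 6 else 0 := by
  decide +kernel

lemma sgn_cases : ∀ (p : ZMod 14) (T : ZMod 14 × Bool), sgn p T = 1 ∨ sgn p T = -1 := by
  decide +kernel

lemma deg_point' : ∀ p : ZMod 14, (univ.filter fun T : ZMod 14 × Bool => inc p T).card = 6 := by
  decide +kernel

lemma deg_tri' : ∀ T : ZMod 14 × Bool, (univ.filter fun p : ZMod 14 => inc p T).card = 3 := by
  decide +kernel

/-- the potential on the lift -/
noncomputable def pot : ZMod 14 ⊕ (ZMod 14 × Bool) → ZMod 14 ⊕ (ZMod 14 × Bool) → ℂ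
  | Sum.inl p, Sum.inr T => sgn p T
  | Sum.inr T, Sum.inl p => sgn p T
  | _, _ => 1

lemma pot_isPotential : IsPotential (tg 14) pot := by
  rintro (p | T) (q | S) h
  · exact absurd h (by exact fun h => h)
  · simp only [pot]
    rcases sgn_cases p S with h1 | h1 <;> rw [h1] <;> simp
  · simp only [pot]
    rcases sgn_cases q T with h1 | h1 <;> rw [h1] <;> simp
  · exact absurd h (by exact fun h => h)

lemma lower (f : ZMod 14 ⊕ (ZMod 14 × Bool) → ℂ) :
    (1.627 : ℝ) * ∑ x, ‖f x‖ ^ 2 ≤ energy (tg 14) pot f := by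
  rw [energy_eq pot_isPotential, Fintype.sum_sum_type]
  set Y : ZMod 14 × Bool → ℂ := fun T => ∑ p, (sm p T : ℂ) * f (Sum.inl p) with hY
  have h1 : ∀ (p : ZMod 14) (T : ZMod 14 × Bool), (if inc p T then
      ‖f (Sum.inl p) - pot (Sum.inl p) (Sum.inr T) * f (Sum.inr T)‖ ^ 2 else 0) =
      (if inc p T then ‖f (Sum.inl p)‖ ^ 2 else 0) + (if inc p T then ‖f (Sum.inr T)‖ ^ 2 else 0) -
        2 * (((sm p T : ℂ) * f (Sum.inl p)) * (starRingEnd ℂ) (f (Sum.inr T))).re := by
    intro p T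
    by_cases h : inc p T
    · simp only [if_pos h, pot, sm]
      rcases sgn_cases p T with h2 | h2
      · rw [h2, ← Complex.normSq_eq_norm_sq, Complex.normSq_sub, Complex.normSq_eq_norm_sq,
          Complex.normSq_eq_norm_sq]
        simp
      · rw [h2, ← Complex.normSq_eq_norm_sq, Complex.normSq_sub, Complex.normSq_eq_norm_sq,
          Complex.normSq_eq_norm_sq]
        simp
    · simp [if_neg h, sm]
  simp only [h1]
  simp only [Finset.sum_sub_distrib, Finset.sum_add_distrib, ← Finset.mul_sum]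
  have h2 : ∑ p : ZMod 14, ∑ T : ZMod 14 × Bool, (if inc p T then ‖f (Sum.inl p)‖ ^ 2 else 0) =
      6 * ∑ p, ‖f (Sum.inl p)‖ ^ 2 := by
    rw [Finset.mul_sum]
    refine Finset.sum_congr rfl fun p _ => ?_
    rw [← Finset.sum_filter, Finset.sum_const, deg_point']
    norm_num
  have h3 : ∑ p : ZMod 14, ∑ T : ZMod 14 × Bool, (if inc p T then ‖f (Sum.inr T)‖ ^ 2 else 0) =
      3 * ∑ T, ‖f (Sum.inr T)‖ ^ 2 := by
    rw [Finset.sum_comm, Finset.mul_sum]
    refine Finset.sum_congr rfl fun T _ => ?_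
    rw [← Finset.sum_filter, Finset.sum_const, deg_tri']
    norm_num
  have h4 : ∑ p : ZMod 14, ∑ T : ZMod 14 × Bool,
      (((sm p T : ℂ) * f (Sum.inl p)) * (starRingEnd ℂ) (f (Sum.inr T))).re =
      ∑ T, (Y T * (starRingEnd ℂ) (f (Sum.inr T))).re := by
    rw [Finset.sum_comm]
    refine Finset.sum_congr rfl fun T _ => ?_
    rw [← Complex.re_sum, ← Finset.sum_mul]
  have h5 : ∑ T, ‖Y T‖ ^ 2 = 6 * ∑ p, ‖f (Sum.inl p)‖ ^ 2 := by
    have e1 : ((∑ T, ‖Y T‖ ^ 2 : ℝ) : ℂ) = ((6 * ∑ p, ‖f (Sum.inl p)‖ ^ 2 : ℝ) : ℂ) := by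
      push_cast
      have e2 : ∀ T, ((‖Y T‖ : ℂ)) ^ 2 = ∑ p, ∑ q, ((sm p T * sm q T : ℤ) : ℂ) *
          (f (Sum.inl p) * (starRingEnd ℂ) (f (Sum.inl q))) := by
        intro T
        rw [← Complex.ofReal_pow, ← Complex.normSq_eq_norm_sq, ← Complex.mul_conj]
        simp only [hY, map_sum, map_mul, map_intCast]
        rw [Finset.sum_mul_sum]
        refine Finset.sum_congr rfl fun p _ => Finset.sum_congr rfl fun q _ => ?_
        push_cast
        ring
      simp only [e2]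
      rw [Finset.sum_comm]
      have e3 : ∀ p : ZMod 14, ∑ T : ZMod 14 × Bool, ∑ q : ZMod 14, ((sm p T * sm q T : ℤ) : ℂ) *
          (f (Sum.inl p) * (starRingEnd ℂ) (f (Sum.inl q))) = 6 * (‖f (Sum.inl p)‖ : ℂ) ^ 2 := by
        intro p
        rw [Finset.sum_comm]
        have e4 : ∀ q : ZMod 14, ∑ T : ZMod 14 × Bool, ((sm p T * sm q T : ℤ) : ℂ) *
            (f (Sum.inl p) * (starRingEnd ℂ) (f (Sum.inl q))) =
            if q = p then 6 * (‖f (Sum.inl p)‖ : ℂ) ^ 2 else 0 := by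
          intro q
          rw [← Finset.sum_mul, ← Int.cast_sum, sm_orth]
          by_cases h : p = q
          · subst h
            rw [if_pos rfl, if_pos rfl, Complex.mul_conj, Complex.normSq_eq_norm_sq]
            push_cast
            ring
          · rw [if_neg h, if_neg (Ne.symm h)]
            simp
        simp only [e4, Finset.sum_ite_eq', Finset.mem_univ, if_true]
      simp only [e3, Finset.mul_sum]
    exact_mod_cast e1
  rw [h2, h3, h4]
  have h6 : ∀ T, 2 * (Y T * (starRingEnd ℂ) (f (Sum.inr T))).re ≤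
      1.373 * ‖f (Sum.inr T)‖ ^ 2 + (1 / 1.373) * ‖Y T‖ ^ 2 := by
    intro T
    have e1 : (Y T * (starRingEnd ℂ) (f (Sum.inr T))).re ≤ ‖Y T‖ * ‖f (Sum.inr T)‖ := by
      refine (Complex.re_le_norm _).trans ?_
      rw [norm_mul, RCLike.norm_conj]
    have e2 : 0 ≤ (1.373 * ‖f (Sum.inr T)‖ - ‖Y T‖) ^ 2 := sq_nonneg _
    nlinarith
  have h7 := Finset.sum_le_sum fun T (_ : T ∈ (Finset.univ : Finset (ZMod 14 × Bool))) => h6 T
  rw [← Finset.mul_sum, Finset.sum_add_distrib, ← Finset.mul_sum, ← Finset.mul_sum, h5] at h7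
  have h8 : 0 ≤ ∑ p : ZMod 14, ‖f (Sum.inl p)‖ ^ 2 := Finset.sum_nonneg fun i _ => by positivity
  linarith

lemma nu_lift : 1.627 ≤ nu (tg 14) :=
  (le_lam1 pot_isPotential lower).trans (lam1_le_nu pot_isPotential)

/-- reduction modulo 7 -/
def red (x : ZMod 14) : ZMod 7 := (x.val : ZMod 7)

/-- the covering map -/
def cov : ZMod 14 ⊕ (ZMod 14 × Bool) → ZMod 7 ⊕ (ZMod 7 × Bool) :=
  Sum.map red (Prod.map red id)

lemma red_surj : ∀ y : ZMod 7, ∃ x : ZMod 14, red x = y := by decide +kernel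

lemma inc_red : ∀ (p : ZMod 14) (T : ZMod 14 × Bool), inc p T → inc (red p) (red T.1, T.2) := by
  decide +kernel

lemma inj1 : ∀ (p : ZMod 14) (T T' : ZMod 14 × Bool), inc p T → inc p T' →
    ((red T.1, T.2) : ZMod 7 × Bool) = (red T'.1, T'.2) → T = T' := by
  decide +kernel

lemma inj2 : ∀ (T : ZMod 14 × Bool) (p p' : ZMod 14), inc p T → inc p' T →
    red p = red p' → p = p' := by
  decide +kernel

lemma surj1 : ∀ (p : ZMod 14) (S : ZMod 7 × Bool), inc (red p) S →
    ∃ T : ZMod 14 × Bool, inc p T ∧ ((red T.1, T.2) : ZMod 7 × Bool) = S := by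
  decide +kernel

lemma surj2 : ∀ (T : ZMod 14 × Bool) (q : ZMod 7), inc q (red T.1, T.2) →
    ∃ p : ZMod 14, inc p T ∧ red p = q := by
  decide +kernel

lemma cov_isLift : IsLift (tg 14) (tg 7) cov := by
  constructor
  · rintro (y | ⟨y, b⟩)
    · obtain ⟨x, hx⟩ := red_surj y
      exact ⟨Sum.inl x, by simp [cov, hx]⟩
    · obtain ⟨x, hx⟩ := red_surj y
      exact ⟨Sum.inr (x, b), by simp [cov, hx]⟩
  · rintro (p | T)
    · refine ⟨?_, ?_, ?_⟩
      · rintro (q | S) h
        · exact absurd h (by exact fun h => h)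
        · exact inc_red p S h
      · rintro (q | S) h (q' | S') h' heq
        · exact absurd h (by exact fun h => h)
        · exact absurd h (by exact fun h => h)
        · exact absurd h' (by exact fun h => h)
        · have : ((red S.1, S.2) : ZMod 7 × Bool) = (red S'.1, S'.2) := Sum.inr_injective heq
          rw [inj1 p S S' h h' this]
      · rintro (q | S) h
        · exact absurd h (by exact fun h => h)
        · obtain ⟨T, hT, hTS⟩ := surj1 p S h
          exact ⟨Sum.inr T, hT, congrArg Sum.inr hTS⟩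
    · refine ⟨?_, ?_, ?_⟩
      · rintro (q | S) h
        · exact inc_red q T h
        · exact absurd h (by exact fun h => h)
      · rintro (q | S) h (q' | S') h' heq
        · rw [inj2 T q q' h h' (Sum.inl_injective heq)]
        · exact absurd h' (by exact fun h => h)
        · exact absurd h (by exact fun h => h)
        · exact absurd h (by exact fun h => h)
      · rintro (q | S) h
        · obtain ⟨p, hp, hpq⟩ := surj2 T q h
          exact ⟨Sum.inl p, hp, congrArg Sum.inl hpq⟩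
        · exact absurd h (by exact fun h => h)

lemma tg_conn (n : ℕ) [NeZero n] : (tg n).Connected := by
  have h0 : ∀ (p : ZMod n), (tg n).Adj (Sum.inl p) (Sum.inr (p, false)) := by
    intro p
    change inc p (p, false)
    left
    simp
  have h1 : ∀ (p : ZMod n), (tg n).Adj (Sum.inr (p, false)) (Sum.inl (p + 1)) := by
    intro p
    change inc (p + 1) (p, false)
    right; left
    simp
  have h2 : ∀ m : ℕ, (tg n).Reachable (Sum.inl 0) (Sum.inl (m : ZMod n)) := by
    intro m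
    induction m with
    | zero => simp
    | succ m ih =>
      push_cast
      exact ih.trans ((h0 _).reachable.trans (h1 _).reachable)
  have h3 : ∀ p : ZMod n, (tg n).Reachable (Sum.inl 0) (Sum.inl p) := by
    intro p
    have := h2 p.val
    rwa [ZMod.natCast_val, ZMod.cast_id] at this
  have h4 : ∀ x, (tg n).Reachable (Sum.inl 0) x := by
    rintro (p | T)
    · exact h3 p
    · have h5 : (tg n).Adj (Sum.inl T.1) (Sum.inr T) := by
        change inc T.1 T
        left
        simp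
      exact (h3 T.1).trans h5.reachable
  have : Nonempty (ZMod n ⊕ (ZMod n × Bool)) := ⟨Sum.inl 0⟩
  exact SimpleGraph.Connected.mk fun x y => (h4 x).symm.trans (h4 y)

/-- There are connected finite graphs `G'` and `G` and a finite lift `G' → G` with
`ν(G') > ν(G)`. -/
theorem result : ∃ (V' V : Type) (_ : Fintype V') (_ : Fintype V) (G' : SimpleGraph V')
    (G : SimpleGraph V) (π : V' → V), G'.Connected ∧ G.Connected ∧ IsLift G' G π ∧
    nu G < nu G' := by
  refine ⟨_, _, inferInstance, inferInstance, tg 14, tg 7, cov, tg_conn 14, tg_conn 7,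
    cov_isLift, ?_⟩
  have h1 := nu_base
  have h2 := nu_lift
  have h3 : (1.62 : ℝ) < 1.627 := by norm_num
  linarith

end Pool.Agent.Results.MP_cbccc2_co.LiftIncreases
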